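import Mathlib

/-! Unit cells in Euclidean space, Fourier uniqueness on the unit cell. -/

open MeasureTheory Set

namespace Pool.Agent.Helper91

noncomputable section

/-- The integer vector `n` as a point of Euclidean space. -/
def vec {d : ℕ} (n : Fin d → ℤ) : EuclideanSpace ℝ (Fin d) := WithLp.toLp 2 (fun i => (n i : ℝ))

@[simp] lemma vec_apply {d : ℕ} (n : Fin d → ℤ) (i : Fin d) : vec n i = n i := rfl

lemma vec_add {d : ℕ} (m n : Fin d → ℤ) : vec (m + n) = vec m + vec n := by
  ext i; simp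

lemma vec_sub {d : ℕ} (m n : Fin d → ℤ) : vec (m - n) = vec m - vec n := by
  ext i; simp

/-- The half-open unit cell with lower corner `n`. -/
def cell {d : ℕ} (n : Fin d → ℤ) : Set (EuclideanSpace ℝ (Fin d)) :=
  {x | ∀ i, x i ∈ Ioc (n i : ℝ) (n i + 1)}

lemma measurableSet_cell {d : ℕ} (n : Fin d → ℤ) : MeasurableSet (cell n) := by
  have : cell n = ⋂ i, (fun x : EuclideanSpace ℝ (Fin d) => x i) ⁻¹' Ioc (n i : ℝ) (n i + 1) := by
    ext x; simp [cell]
  rw [this]
  refine MeasurableSet.iInter fun i => ?_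
  exact measurableSet_Ioc.preimage (by fun_prop)

/-- The corner of the cell containing `x`. -/
def corner {d : ℕ} (x : EuclideanSpace ℝ (Fin d)) : Fin d → ℤ := fun i => ⌈x i⌉ - 1

lemma mem_cell_iff {d : ℕ} (n : Fin d → ℤ) (x : EuclideanSpace ℝ (Fin d)) :
    x ∈ cell n ↔ corner x = n := by
  constructor
  · intro h
    ext i
    have h1 := h i
    have h2 : ⌈x i⌉ = n i + 1 := by
      rw [Int.ceil_eq_iff]
      push_cast
      constructor
      · linarith [h1.1]
      · exact h1.2
    simp [corner, h2]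
  · rintro rfl i
    simp only [corner]
    push_cast
    constructor
    · have := Int.ceil_lt_add_one (x i)
      linarith
    · have := Int.le_ceil (x i)
      linarith

lemma mem_cell_corner {d : ℕ} (x : EuclideanSpace ℝ (Fin d)) : x ∈ cell (corner x) :=
  (mem_cell_iff _ _).2 rfl

lemma cell_disjoint {d : ℕ} {m n : Fin d → ℤ} (h : m ≠ n) : Disjoint (cell m) (cell n) := by
  rw [Set.disjoint_left]
  intro x hm hn
  rw [mem_cell_iff] at hm hn
  exact h (hm ▸ hn)

lemma add_vec_mem_cell {d : ℕ} (n k : Fin d → ℤ) (x : EuclideanSpace ℝ (Fin d)) :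
    x + vec k ∈ cell (n + k) ↔ x ∈ cell n := by
  simp only [cell, Set.mem_ofPred_eq, mem_Ioc, PiLp.add_apply, vec_apply, Pi.add_apply, Int.cast_add]
  refine forall_congr' fun i => ?_
  constructor <;> rintro ⟨h1, h2⟩ <;> constructor <;> linarith

lemma sub_vec_mem_cell {d : ℕ} (n k : Fin d → ℤ) (x : EuclideanSpace ℝ (Fin d)) :
    x - vec k ∈ cell n ↔ x ∈ cell (n + k) := by
  rw [← add_vec_mem_cell n k (x - vec k), sub_add_cancel]

lemma volume_cell {d : ℕ} (n : Fin d → ℤ) : volume (cell n) = 1 := by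
  have h1 : cell n = (MeasurableEquiv.toLp 2 (Fin d → ℝ)).symm ⁻¹'
      (Set.univ.pi fun i => Ioc (n i : ℝ) (n i + 1)) := by
    ext x; simp [cell]
  rw [h1]
  have h2 := (EuclideanSpace.volume_preserving_symm_measurableEquiv_toLp (Fin d))
  rw [h2.measure_preimage_equiv]
  rw [volume_pi_pi]
  simp

/-- Change of cell in an integral. -/
lemma setIntegral_cell {d : ℕ} (n : Fin d → ℤ) (F : EuclideanSpace ℝ (Fin d) → ℂ) :
    ∫ x in cell n, F x = ∫ x in cell 0, F (x + vec n) := by
  have h := (measurePreserving_add_right (volume : Measure (EuclideanSpace ℝ (Fin d)))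
    (vec n)).setIntegral_preimage_emb (measurableEmbedding_addRight (vec n)) F (cell n)
  rw [← h]
  congr 2
  ext x
  have := add_vec_mem_cell 0 n x
  rw [zero_add] at this
  exact this

/-! ### Fourier analysis on the unit cell -/

/-- Normalised measure on the circle, as in Mathlib's file on multivariate Fourier series. -/
local instance : MeasureSpace UnitAddCircle := ⟨AddCircle.haarAddCircle⟩

local instance : Measure.IsAddHaarMeasure (volume : Measure UnitAddCircle) :=
  inferInstanceAs (Measure.IsAddHaarMeasure AddCircle.haarAddCircle)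

local instance : IsProbabilityMeasure (volume : Measure UnitAddCircle) :=
  inferInstanceAs (IsProbabilityMeasure AddCircle.haarAddCircle)

/-- The exponential `e^{-2πi x·b}`. -/
def ex {d : ℕ} (b x : EuclideanSpace ℝ (Fin d)) : ℂ :=
  Complex.exp (-2 * (Real.pi : ℂ) * Complex.I * ((inner ℝ x b : ℝ) : ℂ))

/-- The map from the torus to the unit cell. -/
def fromTorus {d : ℕ} (t : UnitAddTorus (Fin d)) : EuclideanSpace ℝ (Fin d) :=
  WithLp.toLp 2 (UnitAddTorus.measurableEquivPiIoc (fun _ : Fin d => (0 : ℝ)) t).1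

lemma measurePreserving_fromTorus {d : ℕ} :
    MeasurePreserving (fromTorus (d := d)) volume (volume.restrict (cell 0)) := by
  have h1 := UnitAddTorus.measurePreserving_equivPiIoc (d := Fin d) (fun _ => (0 : ℝ))
  have hS : MeasurableSet {x : Fin d → ℝ | ∀ i, x i ∈ Ioc (0 : ℝ) (0 + 1)} :=
    MeasurableSet.univ_pi' (fun i => measurableSet_Ioc)
  have h2 : MeasurePreserving (Subtype.val : {x : Fin d → ℝ // ∀ i, x i ∈ Ioc (0 : ℝ) (0 + 1)} →
      (Fin d → ℝ)) (Measure.comap Subtype.val volume)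
      (volume.restrict {x : Fin d → ℝ | ∀ i, x i ∈ Ioc (0 : ℝ) (0 + 1)}) :=
    ⟨measurable_subtype_coe, map_comap_subtype_coe hS volume⟩
  have h3 := (EuclideanSpace.volume_preserving_symm_measurableEquiv_toLp (Fin d)).symm
  have h4 : MeasurePreserving (WithLp.toLp 2 : (Fin d → ℝ) → EuclideanSpace ℝ (Fin d))
      (volume.restrict {x : Fin d → ℝ | ∀ i, x i ∈ Ioc (0 : ℝ) (0 + 1)})
      (volume.restrict (cell 0)) := by
    have h5 := h3.restrict_preimage (s := cell (0 : Fin d → ℤ)) (measurableSet_cell 0)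
    have e : {x : Fin d → ℝ | ∀ i, x i ∈ Ioc (0 : ℝ) (0 + 1)} =
        (WithLp.toLp 2 : (Fin d → ℝ) → EuclideanSpace ℝ (Fin d)) ⁻¹' cell 0 := by
      ext x; simp [cell]
    rw [e]
    exact h5
  exact h4.comp (h2.comp h1)

lemma fromTorus_coe {d : ℕ} (t : UnitAddTorus (Fin d)) (i : Fin d) :
    ((fromTorus t i : ℝ) : UnitAddCircle) = t i := by
  have h := (UnitAddTorus.measurableEquivPiIoc (fun _ : Fin d => (0 : ℝ))).symm_apply_apply t
  exact congrFun h i

lemma inner_vec {d : ℕ} (x : EuclideanSpace ℝ (Fin d)) (m : Fin d → ℤ) :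
    (inner ℝ x (vec m) : ℝ) = ∑ i, (m i : ℝ) * x i := by
  simp [PiLp.inner_apply]

lemma ex_vec_fromTorus {d : ℕ} (m : Fin d → ℤ) (t : UnitAddTorus (Fin d)) :
    ex (vec m) (fromTorus t) = UnitAddTorus.mFourier (-m) t := by
  unfold ex
  rw [inner_vec]
  simp only [UnitAddTorus.mFourier, ContinuousMap.coe_mk]
  push_cast
  rw [Finset.mul_sum, Complex.exp_sum]
  refine Finset.prod_congr rfl fun i _ => ?_
  rw [← fromTorus_coe t i, fourier_coe_apply]
  congr 1
  push_cast
  simp
  ring

lemma ex_add_right {d : ℕ} (b x y : EuclideanSpace ℝ (Fin d)) : ex b (x + y) = ex b x * ex b y := by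
  unfold ex
  rw [← Complex.exp_add, inner_add_left]
  congr 1; push_cast; ring

lemma ex_add_left {d : ℕ} (b c x : EuclideanSpace ℝ (Fin d)) : ex (b + c) x = ex b x * ex c x := by
  unfold ex
  rw [← Complex.exp_add, inner_add_right]
  congr 1; push_cast; ring

lemma ex_neg_left {d : ℕ} (b x : EuclideanSpace ℝ (Fin d)) : ex (-b) x = starRingEnd ℂ (ex b x) := by
  unfold ex
  rw [← Complex.exp_conj, inner_neg_right]
  congr 1
  have h2 : (starRingEnd ℂ) 2 = 2 := map_ofNat _ 2
  simp [Complex.conj_ofReal, h2]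

lemma ex_zero_left {d : ℕ} (x : EuclideanSpace ℝ (Fin d)) : ex 0 x = 1 := by
  unfold ex; simp

lemma norm_ex {d : ℕ} (b x : EuclideanSpace ℝ (Fin d)) : ‖ex b x‖ = 1 := by
  unfold ex
  rw [show -2 * (Real.pi : ℂ) * Complex.I * ((inner ℝ x b : ℝ) : ℂ) =
    ((-2 * Real.pi * (inner ℝ x b : ℝ) : ℝ) : ℂ) * Complex.I by push_cast; ring]
  exact Complex.norm_exp_ofReal_mul_I _

lemma ex_mul_conj {d : ℕ} (b x : EuclideanSpace ℝ (Fin d)) : ex b x * starRingEnd ℂ (ex b x) = 1 := by
  rw [Complex.mul_conj, Complex.normSq_eq_norm_sq, norm_ex]; simp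

lemma continuous_ex {d : ℕ} (b : EuclideanSpace ℝ (Fin d)) : Continuous (ex b) := by
  unfold ex; fun_prop

/-- Integer characters at integer points. -/
lemma ex_vec_vec {d : ℕ} (m n : Fin d → ℤ) : ex (vec m) (vec n) = 1 := by
  unfold ex
  rw [inner_vec]
  have h : (∑ i, (m i : ℝ) * vec n i) = ((∑ i, m i * n i : ℤ) : ℝ) := by
    push_cast
    refine Finset.sum_congr rfl fun i _ => ?_
    simp
  rw [h]
  have h2 := Complex.exp_int_mul_two_pi_mul_I (-(∑ i, m i * n i))
  rw [← h2]
  congr 1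
  push_cast
  ring

/-- Nonzero integer characters have mean zero on the unit cell. -/
lemma integral_ex_vec {d : ℕ} {m : Fin d → ℤ} (hm : m ≠ 0) : ∫ x in cell 0, ex (vec m) x = 0 := by
  have h1 := (measurePreserving_fromTorus (d := d)).map_eq
  rw [← h1, integral_map (measurePreserving_fromTorus (d := d)).measurable.aemeasurable
    (continuous_ex _).aestronglyMeasurable]
  simp_rw [ex_vec_fromTorus]
  have h2 := UnitAddTorus.orthonormal_mFourier (d := Fin d)
  have h3 := h2.2 (i := 0) (j := -m) (by simpa using hm)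
  simp only at h3
  rw [ContinuousMap.inner_toLp] at h3
  rw [← h3]
  congr 1
  ext t
  simp [UnitAddTorus.mFourier_zero]

/-- Uniqueness of Fourier coefficients on the unit cell. -/
lemma ae_zero_of_coeff {d : ℕ} {g : EuclideanSpace ℝ (Fin d) → ℂ}
    (hg : MemLp g 2 (volume.restrict (cell 0)))
    (h : ∀ m : Fin d → ℤ, ∫ x in cell 0, g x * ex (vec m) x = 0) :
    g =ᵐ[volume.restrict (cell 0)] 0 := by
  have hψ := measurePreserving_fromTorus (d := d)
  have hh : MemLp (g ∘ fromTorus) 2 (volume : Measure (UnitAddTorus (Fin d))) :=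
    hg.comp_measurePreserving hψ
  have hcoef : ∀ m : Fin d → ℤ, UnitAddTorus.mFourierBasis.repr (hh.toLp _) m = 0 := by
    intro m
    rw [UnitAddTorus.mFourierBasis_repr]
    unfold UnitAddTorus.mFourierCoeff
    have e1 : ∫ t, UnitAddTorus.mFourier (-m) t • (hh.toLp (g ∘ fromTorus)) t =
        ∫ t, (fun x => g x * ex (vec m) x) (fromTorus t) := by
      apply integral_congr_ae
      filter_upwards [hh.coeFn_toLp] with t ht
      rw [ht, smul_eq_mul, mul_comm, ← ex_vec_fromTorus]
      rfl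
    rw [e1]
    rw [← h m, ← hψ.map_eq, integral_map hψ.measurable.aemeasurable]
    have : AEStronglyMeasurable g (Measure.map fromTorus (volume : Measure (UnitAddTorus (Fin d)))) := by
      rw [hψ.map_eq]; exact hg.1
    exact this.mul (continuous_ex _).aestronglyMeasurable
  have hzero : hh.toLp (g ∘ fromTorus) = 0 := by
    apply UnitAddTorus.mFourierBasis.repr.injective
    rw [map_zero]
    ext m
    exact hcoef m
  have h0 : (g ∘ fromTorus) =ᵐ[(volume : Measure (UnitAddTorus (Fin d)))] 0 := by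
    have h1 := hh.coeFn_toLp
    rw [hzero] at h1
    exact h1.symm.trans (Lp.coeFn_zero _ _ _)
  have h1 : eLpNorm g 2 (volume.restrict (cell 0)) = 0 := by
    rw [← eLpNorm_comp_measurePreserving hg.1 hψ]
    exact (eLpNorm_eq_zero_iff hh.1 (by norm_num)).2 h0
  exact (eLpNorm_eq_zero_iff hg.1 (by norm_num)).1 h1

end

end Pool.Agent.Helper91
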