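import Pool.Agent.Helper91.Gabor

/-! A union of 24 unit squares which is not spectral, but whose indicator function is the window
of an orthogonal Gabor basis. -/

open MeasureTheory Set

namespace Pool.Agent.Helper91

noncomputable section

/-- Abscissae. -/
def exA : Fin 6 → Fin 2 → ℤ := ![![11, 15], ![12, 13], ![2, 8], ![7, 10], ![5, 9], ![4, 6]]

/-- Ordinates. -/
def exB : Fin 6 → Fin 2 → ℤ := ![![10, 13], ![5, 9], ![2, 4], ![-1, 3], ![7, 8], ![0, 6]]

lemma exA_bij : Function.Bijective (fun p : Fin 6 × Fin 2 => (exA p.1 p.2 : ZMod 12)) := by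
  decide +kernel

lemma exB_bij : Function.Bijective (fun p : Fin 6 × Fin 2 => (exB p.1 p.2 : ZMod 12)) := by
  decide +kernel

/-- The data of the example. -/
def exD : GaborData (Fin 6) 12 where
  a := exA
  b := exB
  θ := 1 / 8
  ha := exA_bij
  hb := exB_bij
  hθ := by
    intro k
    fin_cases k
    · exact ⟨1, by simp [exA, exB]; norm_num⟩
    · exact ⟨0, by simp [exA, exB]; norm_num⟩
    · exact ⟨1, by simp [exA, exB]; norm_num⟩
    · exact ⟨1, by simp [exA, exB]; norm_num⟩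
    · exact ⟨0, by simp [exA, exB]; norm_num⟩
    · exact ⟨1, by simp [exA, exB]; norm_num⟩

/-- Witnesses for the differences. -/
def wit : Fin 9 → Fin 9 → ℕ × ℕ :=
  ![![(20, 11), (0, 3), (18, 7), (11, 4), (0, 2), (22, 14), (18, 6), (1, 2), (21, 10)],
    ![(5, 3), (20, 13), (18, 5), (5, 2), (12, 14), (20, 12), (18, 4), (19, 4), (17, 11)],
    ![(7, 3), (18, 0), (19, 0), (7, 2), (20, 22), (0, 7), (23, 11), (10, 14), (1, 7)],
    ![(4, 7), (12, 10), (21, 17), (13, 11), (4, 6), (0, 5), (17, 23), (23, 13), (1, 5)],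
    ![(4, 5), (0, 1), (8, 9), (16, 17), (0, 0), (17, 16), (9, 8), (1, 0), (5, 4)],
    ![(5, 1), (13, 23), (23, 17), (5, 0), (6, 4), (11, 13), (17, 21), (18, 11), (7, 4)],
    ![(7, 1), (14, 10), (20, 8), (7, 0), (22, 20), (2, 7), (21, 9), (0, 18), (3, 7)],
    ![(14, 13), (11, 16), (4, 18), (12, 20), (14, 12), (2, 5), (6, 15), (16, 9), (3, 5)],
    ![(22, 9), (2, 1), (22, 8), (18, 17), (2, 0), (4, 11), (23, 9), (3, 0), (23, 8)]]

/-- Abscissa of the corner with number `t`. -/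
def px (t : ℕ) : ℤ := exA (Fin.ofNat 6 (t / 4)) (Fin.ofNat 2 (t / 2))

/-- Ordinate of the corner with number `t`. -/
def py (t : ℕ) : ℤ := exB (Fin.ofNat 6 (t / 4)) (Fin.ofNat 2 t)

lemma wit_spec : ∀ x y : Fin 9, px (wit x y).1 - px (wit x y).2 = (x : ℤ) - 4 ∧
    py (wit x y).1 - py (wit x y).2 = (y : ℤ) - 4 := by
  decide +kernel

lemma mem_exE (t : ℕ) : (![px t, py t] : Fin 2 → ℤ) ∈ exD.E₀ := by
  rw [GaborData.mem_E₀]
  exact ⟨Fin.ofNat 6 (t / 4), Fin.ofNat 2 (t / 2), Fin.ofNat 2 t, rfl⟩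

/-- The `5 × 5` box. -/
def box : Finset (Fin 2 → ℤ) :=
  Finset.univ.image (fun p : Fin 5 × Fin 5 => ![(p.1 : ℤ), (p.2 : ℤ)])

lemma card_box : box.card = 25 := by
  unfold box
  rw [Finset.card_image_of_injective]
  · simp
  · rintro ⟨x, y⟩ ⟨x', y'⟩ h
    have h0 := congrFun h 0
    have h1 := congrFun h 1
    simp only [Matrix.cons_val_zero, Matrix.cons_val_one, Nat.cast_inj] at h0 h1
    exact Prod.ext (Fin.ext h0) (Fin.ext h1)

lemma card_exE : exD.E₀.card = 24 := by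
  rw [GaborData.card_E₀]; simp

lemma box_diff : ∀ b ∈ box, ∀ b' ∈ box, ∃ e ∈ exD.E₀, ∃ e' ∈ exD.E₀, b - b' = e - e' := by
  intro b hb b' hb'
  simp only [box, Finset.mem_image, Finset.mem_univ, true_and, Prod.exists] at hb hb'
  obtain ⟨x, y, rfl⟩ := hb
  obtain ⟨x', y', rfl⟩ := hb'
  have hx := x.2
  have hy := y.2
  have hx' := x'.2
  have hy' := y'.2
  obtain ⟨h1, h2⟩ := wit_spec ⟨x + 4 - x', by omega⟩ ⟨y + 4 - y', by omega⟩
  refine ⟨_, mem_exE (wit ⟨x + 4 - x', by omega⟩ ⟨y + 4 - y', by omega⟩).1,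
    _, mem_exE (wit ⟨x + 4 - x', by omega⟩ ⟨y + 4 - y', by omega⟩).2, ?_⟩
  ext t
  fin_cases t
  · simp only [Pi.sub_apply, Fin.zero_eta, Matrix.cons_val_zero]
    refine Eq.trans ?_ h1.symm
    have : x'.val ≤ x.val + 4 := by omega
    push_cast [this]
    ring
  · simp only [Pi.sub_apply, Fin.mk_one, Matrix.cons_val_one]
    refine Eq.trans ?_ h2.symm
    have : y'.val ≤ y.val + 4 := by omega
    push_cast [this]
    ring

theorem ex_not_hasSpectrum : ¬ HasSpectrum (region exD.E₀) := by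
  refine not_hasSpectrum (B₀ := box) ?_ box_diff ?_
  · exact ⟨_, mem_exE 0⟩
  · rw [card_exE, card_box]; norm_num

end

end Pool.Agent.Helper91
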