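import Pool.Agent.Helper91.NonSpectral

/-! A family of unions of unit squares whose indicator functions are windows of orthogonal
Gabor bases. -/

open MeasureTheory Set

namespace Pool.Agent.Helper91

noncomputable section

section general

variable {d : ℕ}

lemma integrableOn_ex (b : EuclideanSpace ℝ (Fin d)) (u : Fin d → ℤ) :
    IntegrableOn (ex b) (cell u) := by
  have : IsFiniteMeasure (volume.restrict (cell u)) :=
    ⟨by rw [Measure.restrict_apply_univ, volume_cell]; exact ENNReal.one_lt_top⟩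
  exact Integrable.of_bound (continuous_ex b).aestronglyMeasurable 1
    (Filter.Eventually.of_forall fun x => (norm_ex b x).le)

lemma setIntegral_region (F : Finset (Fin d → ℤ)) (g : EuclideanSpace ℝ (Fin d) → ℂ)
    (hg : ∀ u ∈ F, IntegrableOn g (cell u)) :
    ∫ x in region F, g x = ∑ u ∈ F, ∫ x in cell u, g x := by
  rw [region_eq]
  exact integral_biUnion_finset F (fun u _ => measurableSet_cell u)
    (fun u _ v _ h => cell_disjoint h) hg

lemma ae_of_cells {P : EuclideanSpace ℝ (Fin d) → Prop}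
    (h : ∀ᵐ y ∂(volume.restrict (cell (0 : Fin d → ℤ))), ∀ u, P (y + vec u)) : ∀ᵐ x, P x := by
  have h1 : ∀ u : Fin d → ℤ, ∀ᵐ x ∂(volume.restrict (cell u)), P x := by
    intro u
    have h2 := (measurePreserving_add_right (volume : Measure (EuclideanSpace ℝ (Fin d)))
      (vec u)).restrict_preimage_emb (measurableEmbedding_addRight (vec u)) (cell u)
    have h3 : (fun x : EuclideanSpace ℝ (Fin d) => x + vec u) ⁻¹' cell u = cell 0 := by
      ext x
      have := add_vec_mem_cell 0 u x
      rw [zero_add] at this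
      exact this
    rw [h3] at h2
    rw [← h2.map_eq, (measurableEmbedding_addRight (vec u)).ae_map_iff]
    filter_upwards [h] with y hy using hy u
  have h4 := (ae_restrict_iUnion_iff (μ := volume) (fun u : Fin d → ℤ => cell u) P).2 h1
  have h5 : (⋃ u : Fin d → ℤ, cell u) = univ := by
    ext x; simp only [mem_iUnion, mem_univ, iff_true]; exact ⟨_, mem_cell_corner x⟩
  rw [h5, Measure.restrict_univ] at h4
  exact h4

lemma mem_region (E₀ : Finset (Fin d → ℤ)) (x : EuclideanSpace ℝ (Fin d)) :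
    x ∈ region E₀ ↔ corner x ∈ E₀ := Iff.rfl

/-- Elements of a Gabor system. -/
def gab (E : Set (EuclideanSpace ℝ (Fin d)))
    (p : EuclideanSpace ℝ (Fin d) × EuclideanSpace ℝ (Fin d)) (x : EuclideanSpace ℝ (Fin d)) : ℂ :=
  E.indicator (fun _ => (1 : ℂ)) (x - p.1) * ex p.2 x

lemma mem_region_sub (E₀ : Finset (Fin d → ℤ)) (A : Fin d → ℤ) (x : EuclideanSpace ℝ (Fin d)) :
    x - vec A ∈ region E₀ ↔ x ∈ region (E₀.image (· + A)) := by
  simp only [region_eq, mem_iUnion, exists_prop, sub_vec_mem_cell, Finset.mem_image,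
    exists_exists_and_eq_and]

/-- The inner product of two elements of a Gabor system. -/
lemma integral_gab_gab (E₀ : Finset (Fin d → ℤ)) (A A' : Fin d → ℤ)
    (b b' : EuclideanSpace ℝ (Fin d)) :
    ∫ x, gab (region E₀) (vec A, b) x * starRingEnd ℂ (gab (region E₀) (vec A', b') x) =
      (∑ u ∈ E₀ with u + A - A' ∈ E₀, ex (b - b') (vec (u + A))) * kap (b - b') := by
  have h1 : ∀ x, gab (region E₀) (vec A, b) x * starRingEnd ℂ (gab (region E₀) (vec A', b') x) =
      (region ((E₀.filter fun u => u + A - A' ∈ E₀).image (· + A))).indicator (ex (b - b')) x := by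
    intro x
    have hiff : x ∈ region ((E₀.filter fun u => u + A - A' ∈ E₀).image (· + A)) ↔
        x - vec A ∈ region E₀ ∧ x - vec A' ∈ region E₀ := by
      rw [mem_region_sub, mem_region_sub, mem_region, mem_region, mem_region]
      simp only [Finset.mem_image, Finset.mem_filter]
      constructor
      · rintro ⟨u, ⟨hu, hu'⟩, h⟩
        refine ⟨⟨u, hu, h⟩, ⟨_, hu', ?_⟩⟩
        rw [sub_add_cancel]; exact h
      · rintro ⟨⟨u, hu, h⟩, ⟨v, hv, h'⟩⟩
        refine ⟨u, ⟨hu, ?_⟩, h⟩
        rw [h, ← h', add_sub_cancel_right]; exact hv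
    unfold gab
    by_cases hx : x - vec A ∈ region E₀
    · by_cases hx' : x - vec A' ∈ region E₀
      · rw [indicator_of_mem hx, indicator_of_mem hx', indicator_of_mem (hiff.2 ⟨hx, hx'⟩),
          one_mul, one_mul, sub_eq_add_neg, ex_add_left, ex_neg_left]
      · rw [indicator_of_notMem hx', indicator_of_notMem (fun h => hx' (hiff.1 h).2)]
        simp
    · rw [indicator_of_notMem hx, indicator_of_notMem (fun h => hx (hiff.1 h).1)]
      simp
  simp_rw [h1]
  rw [integral_indicator (measurableSet_region _), setIntegral_region _ _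
    (fun u _ => integrableOn_ex _ u), Finset.sum_image (fun u _ v _ h => add_right_cancel h),
    Finset.sum_mul]
  refine Finset.sum_congr rfl fun u _ => ?_
  rw [setIntegral_cell_ex]

lemma memLp_add_vec {f : EuclideanSpace ℝ (Fin d) → ℂ} (hf : MemLp f 2 volume) (u : Fin d → ℤ)
    (v : Fin d → ℤ) :
    MemLp (fun y => f (y + vec u)) 2 (volume.restrict (cell v)) :=
  (hf.comp_measurePreserving (measurePreserving_add_right volume (vec u))).restrict _

lemma integrableOn_mul_conj_ex {f : EuclideanSpace ℝ (Fin d) → ℂ} (hf : MemLp f 2 volume)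
    (b : EuclideanSpace ℝ (Fin d)) (u : Fin d → ℤ) (w : EuclideanSpace ℝ (Fin d)) :
    IntegrableOn (fun x => f x * starRingEnd ℂ (ex b (x + w))) (cell u) := by
  have hfin : IsFiniteMeasure (volume.restrict (cell u)) :=
    ⟨by rw [Measure.restrict_apply_univ, volume_cell]; exact ENNReal.one_lt_top⟩
  have h1 : Integrable f (volume.restrict (cell u)) :=
    (hf.restrict (cell u)).integrable (by norm_num)
  have hc : Continuous fun x => starRingEnd ℂ (ex b (x + w)) :=
    Complex.continuous_conj.comp ((continuous_ex b).comp (by fun_prop))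
  refine h1.mono (h1.1.mul hc.aestronglyMeasurable) (Filter.Eventually.of_forall fun x => ?_)
  rw [norm_mul, RCLike.norm_conj, norm_ex, mul_one]

/-- The coefficient of a function against an element of a Gabor system. -/
lemma integral_mul_gab (E₀ : Finset (Fin d → ℤ)) (A : Fin d → ℤ)
    (b : EuclideanSpace ℝ (Fin d)) {f : EuclideanSpace ℝ (Fin d) → ℂ} (hf : MemLp f 2 volume) :
    ∫ x, f x * starRingEnd ℂ (gab (region E₀) (vec A, b) x) =
      ∫ y in cell 0, ∑ u ∈ E₀, f (y + vec (u + A)) * starRingEnd ℂ (ex b (y + vec (u + A))) := by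
  have h1 : ∀ x, f x * starRingEnd ℂ (gab (region E₀) (vec A, b) x) =
      (region (E₀.image (· + A))).indicator (fun x => f x * starRingEnd ℂ (ex b x)) x := by
    intro x
    unfold gab
    by_cases hx : x - vec A ∈ region E₀
    · rw [indicator_of_mem hx, indicator_of_mem ((mem_region_sub _ _ _).1 hx), one_mul]
    · rw [indicator_of_notMem hx, indicator_of_notMem (fun h => hx ((mem_region_sub _ _ _).2 h))]
      simp
  have hint : ∀ u, IntegrableOn (fun x => f x * starRingEnd ℂ (ex b x)) (cell u) := by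
    intro u
    have := integrableOn_mul_conj_ex hf b u 0
    simpa using this
  simp_rw [h1]
  rw [integral_indicator (measurableSet_region _), setIntegral_region _ _
    (fun u _ => hint u), Finset.sum_image (fun u _ v _ h => add_right_cancel h)]
  rw [integral_finsetSum]
  · refine Finset.sum_congr rfl fun u _ => ?_
    rw [setIntegral_cell]
  · intro u _
    have hf' : MemLp (fun y => f (y + vec (u + A))) 2 volume :=
      hf.comp_measurePreserving (measurePreserving_add_right volume (vec (u + A)))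
    exact integrableOn_mul_conj_ex hf' b 0 (vec (u + A))

/-- Fourier uniqueness for the coefficients of a Gabor system. -/
lemma sum_ae_zero (E₀ : Finset (Fin d → ℤ)) (A : Fin d → ℤ)
    (b : EuclideanSpace ℝ (Fin d)) {f : EuclideanSpace ℝ (Fin d) → ℂ} (hf : MemLp f 2 volume)
    (h : ∀ m : Fin d → ℤ,
      ∫ x, f x * starRingEnd ℂ (gab (region E₀) (vec A, b + vec m) x) = 0) :
    ∀ᵐ y ∂(volume.restrict (cell (0 : Fin d → ℤ))),
      ∑ u ∈ E₀, f (y + vec (u + A)) * starRingEnd ℂ (ex b (vec (u + A))) = 0 := by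
  set g : EuclideanSpace ℝ (Fin d) → ℂ := fun y =>
    (∑ u ∈ E₀, f (y + vec (u + A)) * starRingEnd ℂ (ex b (vec (u + A)))) *
      starRingEnd ℂ (ex b y) with hgdef
  have hg0 : MemLp (fun y => ∑ u ∈ E₀, f (y + vec (u + A)) * starRingEnd ℂ (ex b (vec (u + A)))) 2
      (volume.restrict (cell (0 : Fin d → ℤ))) := by
    refine memLp_finsetSum _ fun u _ => ?_
    have := (memLp_add_vec hf (u + A) 0).const_mul (starRingEnd ℂ (ex b (vec (u + A))))
    refine this.congr_norm ?_ ?_
    · exact (memLp_add_vec hf (u + A) 0).1.mul_const _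
    · exact Filter.Eventually.of_forall fun x => by rw [norm_mul, norm_mul, mul_comm]
  have hc : Continuous fun x => starRingEnd ℂ (ex b x) :=
    Complex.continuous_conj.comp (continuous_ex b)
  have hg : MemLp g 2 (volume.restrict (cell (0 : Fin d → ℤ))) := by
    refine hg0.of_le (hg0.1.mul hc.aestronglyMeasurable) (Filter.Eventually.of_forall fun x => ?_)
    rw [hgdef]
    simp only
    rw [norm_mul, RCLike.norm_conj, norm_ex, mul_one]
  have hcoef : ∀ m : Fin d → ℤ, ∫ x in cell 0, g x * ex (vec m) x = 0 := by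
    intro m
    rw [← h (-m), integral_mul_gab E₀ A _ hf]
    congr 1
    ext y
    rw [hgdef]
    simp only
    rw [Finset.sum_mul, Finset.sum_mul]
    refine Finset.sum_congr rfl fun u _ => ?_
    have h1 : ex (b + vec (-m)) (y + vec (u + A)) =
        ex b (vec (u + A)) * ex b y * starRingEnd ℂ (ex (vec m) y) := by
      have h2 : (vec (-m) : EuclideanSpace ℝ (Fin d)) = -vec m := by
        ext i; simp
      rw [ex_add_left, ex_add_right, h2, ex_neg_left, ex_add_right (vec m), ex_vec_vec]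
      ring_nf
    rw [h1]
    simp only [map_mul, Complex.conj_conj]
    ring
  have hz := ae_zero_of_coeff hg hcoef
  filter_upwards [hz] with y hy
  rw [hgdef] at hy
  simp only [Pi.zero_apply] at hy
  rcases mul_eq_zero.1 hy with h1 | h1
  · exact h1
  · exfalso
    have h2 := norm_ex b y
    have h3 : ex b y = 0 := by
      simpa using h1
    rw [h3, norm_zero] at h2
    exact zero_ne_one h2

end general

/-! ### The planar construction -/

/-- `e^{2πit}` -/
def e1 (t : ℝ) : ℂ := Complex.exp (2 * (Real.pi : ℂ) * Complex.I * t)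

lemma e1_add (s t : ℝ) : e1 (s + t) = e1 s * e1 t := by
  unfold e1; rw [← Complex.exp_add]; congr 1; push_cast; ring

lemma e1_int (m : ℤ) : e1 m = 1 := by
  unfold e1
  rw [← Complex.exp_int_mul_two_pi_mul_I m]; congr 1; push_cast; ring

lemma e1_half : e1 (1 / 2) = -1 := by
  unfold e1
  rw [show 2 * (Real.pi : ℂ) * Complex.I * ((1 / 2 : ℝ) : ℂ) = Real.pi * Complex.I by
    push_cast; ring]
  exact Complex.exp_pi_mul_I

lemma e1_int_half (m : ℤ) : e1 (m + 1 / 2) = -1 := by
  rw [e1_add, e1_int, e1_half, one_mul]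

lemma e1_ne_zero (t : ℝ) : e1 t ≠ 0 := Complex.exp_ne_zero _

lemma e1_div {n : ℕ} [NeZero n] (m : ℤ) : e1 (m / n) = ZMod.stdAddChar (m : ZMod n) := by
  rw [ZMod.stdAddChar_coe]
  unfold e1
  congr 1
  push_cast
  ring

/-- The point with coordinates `s`, `t`. -/
def pt (s t : ℝ) : EuclideanSpace ℝ (Fin 2) := WithLp.toLp 2 ![s, t]

lemma ex_pt_vec (s t : ℝ) (u : Fin 2 → ℤ) : ex (pt s t) (vec u) = e1 (-(s * u 0 + t * u 1)) := by
  unfold ex e1
  congr 1
  have : (inner ℝ (vec u) (pt s t) : ℝ) = s * u 0 + t * u 1 := by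
    simp [PiLp.inner_apply, Fin.sum_univ_two, pt]
  rw [this]
  push_cast
  ring

lemma conj_ex_pt_vec (s t : ℝ) (u : Fin 2 → ℤ) :
    starRingEnd ℂ (ex (pt s t) (vec u)) = e1 (s * u 0 + t * u 1) := by
  have h : (-(pt s t) : EuclideanSpace ℝ (Fin 2)) = pt (-s) (-t) := by
    ext i; fin_cases i <;> simp [pt]
  rw [← ex_neg_left, h, ex_pt_vec]
  congr 1; ring

/-- The data of the planar construction. -/
structure GaborData (ι : Type) (n : ℕ) where
  /-- abscissae -/
  a : ι → Fin 2 → ℤ
  /-- ordinates -/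
  b : ι → Fin 2 → ℤ
  /-- slope -/
  θ : ℝ
  ha : Function.Bijective (fun p : ι × Fin 2 => (a p.1 p.2 : ZMod n))
  hb : Function.Bijective (fun p : ι × Fin 2 => (b p.1 p.2 : ZMod n))
  hθ : ∀ k, ∃ m : ℤ, θ * (a k 1 - a k 0) * (b k 1 - b k 0) = m + 1 / 2

namespace GaborData

variable {ι : Type} [Fintype ι] {n : ℕ} [NeZero n] (D : GaborData ι n)

/-- Corner of the square with index `q`. -/
def c (q : ι × Fin 2 × Fin 2) : Fin 2 → ℤ := ![D.a q.1 q.2.1, D.b q.1 q.2.2]

/-- The set of corners. -/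
def E₀ : Finset (Fin 2 → ℤ) := Finset.univ.image D.c

omit [Fintype ι] [NeZero n] in
lemma a_inj {k k' : ι} {i i' : Fin 2} (h : (D.a k i : ZMod n) = D.a k' i') : k = k' ∧ i = i' := by
  have := D.ha.1 (a₁ := (k, i)) (a₂ := (k', i')) h
  simpa using this

omit [Fintype ι] [NeZero n] in
lemma b_inj {k k' : ι} {i i' : Fin 2} (h : (D.b k i : ZMod n) = D.b k' i') : k = k' ∧ i = i' := by
  have := D.hb.1 (a₁ := (k, i)) (a₂ := (k', i')) h
  simpa using this

omit [Fintype ι] [NeZero n] in
lemma c_injective : Function.Injective D.c := by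
  rintro ⟨k, i, l⟩ ⟨k', i', l'⟩ h
  have h0 := congrFun h 0
  have h1 := congrFun h 1
  simp only [c, Matrix.cons_val_zero, Matrix.cons_val_one] at h0 h1
  obtain ⟨rfl, rfl⟩ := D.a_inj (congrArg (Int.cast : ℤ → ZMod n) h0)
  obtain ⟨-, rfl⟩ := D.b_inj (congrArg (Int.cast : ℤ → ZMod n) h1)
  rfl

omit [NeZero n] in
lemma card_E₀ : D.E₀.card = 4 * Fintype.card ι := by
  unfold E₀
  rw [Finset.card_image_of_injective _ D.c_injective]
  simp [Fintype.card_prod]
  ring

omit [NeZero n] in
lemma sum_E₀ (g : (Fin 2 → ℤ) → ℂ) :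
    ∑ u ∈ D.E₀, g u = ∑ k, ∑ i, ∑ l, g ![D.a k i, D.b k l] := by
  unfold E₀
  rw [Finset.sum_image (fun q _ q' _ h => D.c_injective h), Fintype.sum_prod_type]
  refine Finset.sum_congr rfl fun k _ => ?_
  rw [Fintype.sum_prod_type]
  rfl

omit [NeZero n] in
lemma mem_E₀ (u : Fin 2 → ℤ) : u ∈ D.E₀ ↔ ∃ k i l, u = ![D.a k i, D.b k l] := by
  unfold E₀
  simp only [Finset.mem_image, Finset.mem_univ, true_and]
  constructor
  · rintro ⟨⟨k, i, l⟩, rfl⟩; exact ⟨k, i, l, rfl⟩
  · rintro ⟨k, i, l, rfl⟩; exact ⟨(k, i, l), rfl⟩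

/-- The set of time-frequency shifts. -/
def S : Set (EuclideanSpace ℝ (Fin 2) × EuclideanSpace ℝ (Fin 2)) :=
  {p | ∃ α s m j : ℤ, p = (vec ![n * α, s], pt (D.θ * s + m) (j / n))}

lemma sum_char_b (J : ℤ) :
    ∑ k, ∑ l, e1 (-((J : ℝ) / n * D.b k l)) = if (J : ZMod n) = 0 then (n : ℂ) else 0 := by
  have h1 : ∀ k l, e1 (-((J : ℝ) / n * D.b k l)) =
      ZMod.stdAddChar (((D.b k l : ℤ) : ZMod n) * (-(J : ZMod n))) := by
    intro k l
    have h2 := e1_div (n := n) (D.b k l * (-J))
    push_cast at h2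
    rw [← h2]
    congr 1
    ring
  simp_rw [h1]
  have h3 := Fintype.sum_prod_type (f := fun p : ι × Fin 2 =>
    (ZMod.stdAddChar (((D.b p.1 p.2 : ℤ) : ZMod n) * (-(J : ZMod n))) : ℂ))
  rw [← h3]
  have h4 := D.hb.sum_comp (fun x : ZMod n => (ZMod.stdAddChar (x * (-(J : ZMod n))) : ℂ))
  rw [h4, AddChar.sum_mulShift _ (ZMod.isPrimitive_stdAddChar n)]
  simp [neg_eq_zero, ZMod.card]

lemma mem_shift (k : ι) (i l : Fin 2) (α α' s s' : ℤ) :
    ![D.a k i, D.b k l] + ![n * α, s] - ![n * α', s'] ∈ D.E₀ ↔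
      α = α' ∧ ∃ l', D.b k l + s - s' = D.b k l' := by
  rw [mem_E₀]
  constructor
  · rintro ⟨k', i', l', h⟩
    have h0 := congrFun h 0
    have h1 := congrFun h 1
    simp only [Pi.sub_apply, Pi.add_apply, Matrix.cons_val_zero, Matrix.cons_val_one] at h0 h1
    have h2 : (D.a k i : ZMod n) = D.a k' i' := by
      rw [← h0]; push_cast; simp
    obtain ⟨rfl, rfl⟩ := D.a_inj h2
    have hn : (n : ℤ) ≠ 0 := by exact_mod_cast NeZero.ne n
    refine ⟨?_, l', h1⟩
    have h3 : (n : ℤ) * α = n * α' := by linarith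
    exact mul_left_cancel₀ hn h3
  · rintro ⟨rfl, l', h⟩
    refine ⟨k, i, l', ?_⟩
    ext t
    fin_cases t
    · simp
    · simpa using h

omit D [Fintype ι] [NeZero n] in
lemma fin2_cases : ∀ l l' : Fin 2, l ≠ l' → (l = 0 ∧ l' = 1) ∨ (l = 1 ∧ l' = 0) := by decide

theorem orthogonal : ∀ p ∈ D.S, ∀ q ∈ D.S, p ≠ q →
    ∫ x, gab (region D.E₀) p x * starRingEnd ℂ (gab (region D.E₀) q x) = 0 := by
  rintro _ ⟨α, s, m, j, rfl⟩ _ ⟨α', s', m', j', rfl⟩ hne
  have hn : (n : ℝ) ≠ 0 := by exact_mod_cast NeZero.ne n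
  rw [integral_gab_gab]
  have hδ : pt (D.θ * s + m) (j / n) - pt (D.θ * s' + m') (j' / n) =
      pt (D.θ * (s - s') + (m - m')) (((j - j' : ℤ) : ℝ) / n) := by
    ext i; fin_cases i
    · simp [pt]; ring
    · simp [pt]; ring
  rw [hδ, Finset.sum_filter, sum_E₀]
  simp_rw [mem_shift, ex_pt_vec]
  by_cases hα : α = α'
  · subst hα
    simp only [true_and]
    by_cases hs : s = s'
    · subst hs
      have hex : ∀ k l, ∃ l', D.b k l + s - s = D.b k l' := fun k l => ⟨l, by ring⟩
      simp only [hex, if_true]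
      by_cases hJ : ((j - j' : ℤ) : ZMod n) = 0
      · -- integer character
        rw [ZMod.intCast_zmod_eq_zero_iff_dvd] at hJ
        obtain ⟨t, ht⟩ := hJ
        have hvec : pt (D.θ * ((s : ℝ) - s) + (m - m')) (((j - j' : ℤ) : ℝ) / n) =
            vec ![m - m', t] := by
          rw [ht]
          ext i; fin_cases i
          · simp [pt]
          · simp only [pt, vec]
            simp
            field_simp
        rw [hvec]
        have hne' : (![m - m', t] : Fin 2 → ℤ) ≠ 0 := by
          intro h0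
          apply hne
          have h1 := congrFun h0 0
          have h2 := congrFun h0 1
          simp only [Matrix.cons_val_zero, Matrix.cons_val_one, Pi.zero_apply] at h1 h2
          rw [h2, mul_zero] at ht
          have h3 : m = m' := by omega
          have h4 : j = j' := by omega
          rw [h3, h4]
        unfold kap
        rw [integral_ex_vec hne', mul_zero]
      · have h1 : ∀ k i l, e1 (-((D.θ * ((s : ℝ) - s) + (m - m')) *
            (((![D.a k i, D.b k l] + ![n * α, s] : Fin 2 → ℤ) 0 : ℤ) : ℝ) +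
            ((j - j' : ℤ) : ℝ) / n *
            (((![D.a k i, D.b k l] + ![n * α, s] : Fin 2 → ℤ) 1 : ℤ) : ℝ))) =
            e1 (-(((j - j' : ℤ) : ℝ) / n * D.b k l)) * e1 (-(((j - j' : ℤ) : ℝ) / n * s)) := by
          intro k i l
          have h2 := e1_int (-((m - m') * (D.a k i + n * α)))
          rw [← e1_add, ← mul_one (e1 (_ + _)), ← h2, ← e1_add]
          congr 1
          simp only [Pi.add_apply, Matrix.cons_val_zero, Matrix.cons_val_one]
          push_cast
          ring
        simp_rw [h1, ← Finset.sum_mul]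
        have h2 : ∑ k, ∑ i : Fin 2, ∑ l, e1 (-(((j - j' : ℤ) : ℝ) / n * D.b k l)) =
            2 * ∑ k, ∑ l, e1 (-(((j - j' : ℤ) : ℝ) / n * D.b k l)) := by
          rw [Finset.mul_sum]
          refine Finset.sum_congr rfl fun k _ => ?_
          rw [Finset.sum_const]
          simp only [Finset.card_univ, Fintype.card_fin, nsmul_eq_mul]
          norm_num
        rw [h2, sum_char_b, if_neg hJ]
        simp
    · -- swap of columns
      have h1 : ∀ k, (∑ i, ∑ l, if ∃ l', D.b k l + s - s' = D.b k l' then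
          e1 (-((D.θ * ((s : ℝ) - s') + (m - m')) *
            (((![D.a k i, D.b k l] + ![n * α, s] : Fin 2 → ℤ) 0 : ℤ) : ℝ) +
            ((j - j' : ℤ) : ℝ) / n *
            (((![D.a k i, D.b k l] + ![n * α, s] : Fin 2 → ℤ) 1 : ℤ) : ℝ))) else 0) = 0 := by
        intro k
        rw [Finset.sum_comm]
        refine Finset.sum_eq_zero fun l _ => ?_
        by_cases hl : ∃ l', D.b k l + s - s' = D.b k l'
        · simp only [hl, if_true]
          rw [Fin.sum_univ_two]
          have key : e1 (-((D.θ * ((s : ℝ) - s') + (m - m')) * (D.a k 1 - D.a k 0))) = -1 := by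
            obtain ⟨l', hl'⟩ := hl
            obtain ⟨M, hM⟩ := D.hθ k
            have hll : l ≠ l' := by
              rintro rfl
              exact hs (by linarith)
            rcases fin2_cases l l' hll with ⟨rfl, rfl⟩ | ⟨rfl, rfl⟩
            · have h3 : ((s : ℝ) - s') = D.b k 1 - D.b k 0 := by
                have : ((D.b k 0 + s - s' : ℤ) : ℝ) = D.b k 1 := by rw [hl']
                push_cast at this; linarith
              rw [h3]
              have h4 := e1_int_half (-M - 1 - (m - m') * (D.a k 1 - D.a k 0))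
              rw [← h4]
              congr 1
              push_cast
              linear_combination -hM
            · have h3 : ((s : ℝ) - s') = -(D.b k 1 - D.b k 0) := by
                have : ((D.b k 1 + s - s' : ℤ) : ℝ) = D.b k 0 := by rw [hl']
                push_cast at this; linarith
              rw [h3]
              have h4 := e1_int_half (M - (m - m') * (D.a k 1 - D.a k 0))
              rw [← h4]
              congr 1
              push_cast
              linear_combination hM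
          have h5 : e1 (-((D.θ * ((s : ℝ) - s') + (m - m')) *
              (((![D.a k 1, D.b k l] + ![n * α, s] : Fin 2 → ℤ) 0 : ℤ) : ℝ) +
              ((j - j' : ℤ) : ℝ) / n *
              (((![D.a k 1, D.b k l] + ![n * α, s] : Fin 2 → ℤ) 1 : ℤ) : ℝ))) =
              e1 (-((D.θ * ((s : ℝ) - s') + (m - m')) *
              (((![D.a k 0, D.b k l] + ![n * α, s] : Fin 2 → ℤ) 0 : ℤ) : ℝ) +
              ((j - j' : ℤ) : ℝ) / n *
              (((![D.a k 0, D.b k l] + ![n * α, s] : Fin 2 → ℤ) 1 : ℤ) : ℝ))) *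
              e1 (-((D.θ * ((s : ℝ) - s') + (m - m')) * (D.a k 1 - D.a k 0))) := by
            rw [← e1_add]
            congr 1
            simp only [Pi.add_apply, Matrix.cons_val_zero, Matrix.cons_val_one]
            push_cast
            ring
          rw [h5, key]
          ring
        · simp [hl]
      rw [Finset.sum_eq_zero fun k _ => h1 k, zero_mul]
  · simp [hα]

end GaborData

lemma inversion {P : Type} [Fintype P] {n : ℕ} [NeZero n] (β : P → ZMod n)
    (hβ : Function.Injective β) (G : P → ℂ)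
    (h : ∀ j : ZMod n, ∑ p, G p * (ZMod.stdAddChar (j * β p) : ℂ) = 0) (p₀ : P) : G p₀ = 0 := by
  classical
  have h1 : ∑ j : ZMod n, (ZMod.stdAddChar (-(j * β p₀)) : ℂ) *
      ∑ p, G p * (ZMod.stdAddChar (j * β p) : ℂ) = 0 := by
    simp [h]
  have h2 : ∑ j : ZMod n, (ZMod.stdAddChar (-(j * β p₀)) : ℂ) *
      ∑ p, G p * (ZMod.stdAddChar (j * β p) : ℂ) = ∑ p, G p * (if p = p₀ then (n : ℂ) else 0) := by
    simp_rw [Finset.mul_sum]
    rw [Finset.sum_comm]
    refine Finset.sum_congr rfl fun p _ => ?_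
    have h3 : ∀ j : ZMod n, (ZMod.stdAddChar (-(j * β p₀)) : ℂ) *
        (G p * (ZMod.stdAddChar (j * β p) : ℂ)) =
        G p * (ZMod.stdAddChar (j * (β p - β p₀)) : ℂ) := by
      intro j
      rw [mul_left_comm, ← AddChar.map_add_eq_mul]
      congr 2
      ring
    simp_rw [h3]
    rw [← Finset.mul_sum, AddChar.sum_mulShift _ (ZMod.isPrimitive_stdAddChar n)]
    congr 1
    by_cases hp : p = p₀
    · simp [hp, ZMod.card]
    · have h4 : β p - β p₀ ≠ 0 := fun h5 => hp (hβ (sub_eq_zero.1 h5))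
      simp [hp, h4]
  rw [h1, Finset.sum_eq_single p₀ (fun p _ hp => by simp [hp]) (fun hp => absurd (Finset.mem_univ _) hp),
    if_pos rfl] at h2
  have hn : (n : ℂ) ≠ 0 := by exact_mod_cast NeZero.ne n
  rcases mul_eq_zero.1 h2.symm with h3 | h3
  · exact h3
  · exact absurd h3 hn

namespace GaborData

variable {ι : Type} [Fintype ι] {n : ℕ} [NeZero n] (D : GaborData ι n)

lemma lattice_zero (φ : (Fin 2 → ℤ) → ℂ) (h : ∀ α s j : ℤ, ∑ u ∈ D.E₀, φ (u + ![n * α, s]) *
      starRingEnd ℂ (ex (pt (D.θ * s) (j / n)) (vec (u + ![n * α, s]))) = 0) (u : Fin 2 → ℤ) :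
    φ u = 0 := by
  have h1 : ∀ α s j : ℤ, ∑ p : ι × Fin 2, (∑ i, φ ![D.a p.1 i + n * α, D.b p.1 p.2 + s] *
      e1 (D.θ * s * (D.a p.1 i + n * α))) * e1 ((j * D.b p.1 p.2 : ℤ) / n) = 0 := by
    intro α s j
    have h2 := h α s j
    rw [sum_E₀] at h2
    simp_rw [conj_ex_pt_vec] at h2
    have h3 : ∀ k i l, φ (![D.a k i, D.b k l] + ![n * α, s]) *
        e1 (D.θ * s * ((![D.a k i, D.b k l] + ![n * α, s] : Fin 2 → ℤ) 0 : ℤ) +
          j / n * ((![D.a k i, D.b k l] + ![n * α, s] : Fin 2 → ℤ) 1 : ℤ)) =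
        φ ![D.a k i + n * α, D.b k l + s] * e1 (D.θ * s * (D.a k i + n * α)) *
          e1 ((j * D.b k l : ℤ) / n) * e1 (j / n * s) := by
      intro k i l
      have hv : (![D.a k i, D.b k l] + ![n * α, s] : Fin 2 → ℤ) =
          ![D.a k i + n * α, D.b k l + s] := by
        ext t; fin_cases t <;> simp
      have he : e1 (D.θ * s * ((D.a k i + n * α : ℤ) : ℝ) + j / n * ((D.b k l + s : ℤ) : ℝ)) =
          e1 (D.θ * s * (D.a k i + n * α)) * e1 ((j * D.b k l : ℤ) / n) * e1 (j / n * s) := by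
        rw [← e1_add, ← e1_add]
        congr 1
        push_cast
        ring
      rw [hv]
      simp only [Matrix.cons_val_zero, Matrix.cons_val_one]
      rw [he]
      ring
    simp_rw [h3, ← Finset.sum_mul] at h2
    have h4 := (mul_eq_zero.1 h2).resolve_right (e1_ne_zero _)
    rw [← h4, Fintype.sum_prod_type]
    refine Finset.sum_congr rfl fun k _ => ?_
    simp_rw [Finset.sum_mul]
    rw [Finset.sum_comm]
  have h2 : ∀ α s : ℤ, ∀ k l, ∑ i, φ ![D.a k i + n * α, D.b k l + s] *
      e1 (D.θ * s * (D.a k i + n * α)) = 0 := by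
    intro α s k l
    refine inversion (fun p : ι × Fin 2 => (D.b p.1 p.2 : ZMod n)) D.hb.1
      (fun p => ∑ i, φ ![D.a p.1 i + n * α, D.b p.1 p.2 + s] *
      e1 (D.θ * s * (D.a p.1 i + n * α))) ?_ (k, l)
    intro j
    obtain ⟨j, rfl⟩ := ZMod.intCast_surjective j
    rw [← h1 α s j]
    refine Finset.sum_congr rfl fun p _ => ?_
    rw [e1_div]
    push_cast
    rfl
  have h3 : ∀ α v : ℤ, ∀ k i, φ ![D.a k i + n * α, v] = 0 := by
    intro α v k
    have e0 := h2 α (v - D.b k 0) k 0
    have e1' := h2 α (v - D.b k 1) k 1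
    simp only [Fin.sum_univ_two, add_sub_cancel] at e0 e1'
    set X₀ := φ ![D.a k 0 + n * α, v]
    set X₁ := φ ![D.a k 1 + n * α, v]
    set c00 := e1 (D.θ * ((v - D.b k 0 : ℤ) : ℝ) * (D.a k 0 + n * α)) with hc00
    set c01 := e1 (D.θ * ((v - D.b k 0 : ℤ) : ℝ) * (D.a k 1 + n * α)) with hc01
    set c10 := e1 (D.θ * ((v - D.b k 1 : ℤ) : ℝ) * (D.a k 0 + n * α)) with hc10
    set c11 := e1 (D.θ * ((v - D.b k 1 : ℤ) : ℝ) * (D.a k 1 + n * α)) with hc11
    have hdet : c01 * c10 = -(c00 * c11) := by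
      obtain ⟨M, hM⟩ := D.hθ k
      have h5 := e1_int_half M
      rw [neg_eq_neg_one_mul, ← h5, ← hM, hc00, hc01, hc10, hc11, ← e1_add, ← e1_add, ← e1_add]
      congr 1
      push_cast
      ring
    have hne : c00 * c11 ≠ 0 := mul_ne_zero (e1_ne_zero _) (e1_ne_zero _)
    have hX0 : X₀ * (2 * (c00 * c11)) = 0 := by
      linear_combination c11 * e0 - c01 * e1' + X₀ * hdet
    have hX1 : X₁ * (2 * (c00 * c11)) = 0 := by
      linear_combination c00 * e1' - c10 * e0 + X₁ * hdet
    have h2ne : 2 * (c00 * c11) ≠ 0 := mul_ne_zero two_ne_zero hne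
    intro i
    fin_cases i
    · exact (mul_eq_zero.1 hX0).resolve_right h2ne
    · exact (mul_eq_zero.1 hX1).resolve_right h2ne
  obtain ⟨⟨k, i⟩, hki⟩ := D.ha.2 (u 0 : ZMod n)
  simp only at hki
  rw [ZMod.intCast_eq_intCast_iff_dvd_sub] at hki
  obtain ⟨α, hα⟩ := hki
  have h4 := h3 α (u 1) k i
  rw [← hα, add_sub_cancel] at h4
  have h5 : u = ![u 0, u 1] := by ext t; fin_cases t <;> rfl
  rw [h5]; exact h4

theorem complete (f : EuclideanSpace ℝ (Fin 2) → ℂ) (hf : MemLp f 2 volume)
    (h : ∀ p ∈ D.S, ∫ x, f x * starRingEnd ℂ (gab (region D.E₀) p x) = 0) :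
    f =ᵐ[volume] 0 := by
  have hn : (n : ℝ) ≠ 0 := by exact_mod_cast NeZero.ne n
  have h1 : ∀ α s j : ℤ, ∀ᵐ y ∂(volume.restrict (cell (0 : Fin 2 → ℤ))),
      ∑ u ∈ D.E₀, f (y + vec (u + ![n * α, s])) *
        starRingEnd ℂ (ex (pt (D.θ * s) (j / n)) (vec (u + ![n * α, s]))) = 0 := by
    intro α s j
    refine sum_ae_zero _ _ _ hf fun m => ?_
    apply h
    refine ⟨α, s, m 0, j + n * m 1, ?_⟩
    congr 1
    ext i
    fin_cases i
    · simp [pt]
    · simp [pt]
      field_simp
  have h2 : ∀ᵐ y ∂(volume.restrict (cell (0 : Fin 2 → ℤ))), ∀ α s j : ℤ,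
      ∑ u ∈ D.E₀, f (y + vec (u + ![n * α, s])) *
        starRingEnd ℂ (ex (pt (D.θ * s) (j / n)) (vec (u + ![n * α, s]))) = 0 := by
    rw [ae_all_iff]; intro α
    rw [ae_all_iff]; intro s
    rw [ae_all_iff]; intro j
    exact h1 α s j
  have h3 : ∀ᵐ x, f x = 0 := by
    apply ae_of_cells
    filter_upwards [h2] with y hy
    intro u
    exact D.lattice_zero (fun v => f (y + vec v)) hy u
  exact h3

end GaborData

end

end Pool.Agent.Helper91
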