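import Pool.Agent.Helper91.Cells

/-! A criterion for unions of unit cells not to be spectral. -/

open MeasureTheory Set

namespace Pool.Agent.Helper91

noncomputable section

variable {d : ℕ}

/-- The union of the unit cells with corners in `E₀`. -/
def region (E₀ : Finset (Fin d → ℤ)) : Set (EuclideanSpace ℝ (Fin d)) := {x | corner x ∈ E₀}

lemma region_eq (E₀ : Finset (Fin d → ℤ)) : region E₀ = ⋃ n ∈ E₀, cell n := by
  ext x
  simp only [region, Set.mem_ofPred_eq, mem_iUnion, mem_cell_iff, exists_prop]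
  constructor
  · intro h; exact ⟨_, h, rfl⟩
  · rintro ⟨n, hn, rfl⟩; exact hn

lemma measurableSet_region (E₀ : Finset (Fin d → ℤ)) : MeasurableSet (region E₀) := by
  rw [region_eq]
  exact Finset.measurableSet_biUnion _ fun n _ => measurableSet_cell n

lemma volume_region (E₀ : Finset (Fin d → ℤ)) : volume (region E₀) = E₀.card := by
  rw [region_eq, measure_biUnion_finset]
  · simp [volume_cell]
  · intro m _ n _ h; exact cell_disjoint h
  · intro n _; exact measurableSet_cell n

lemma cell_subset_region {E₀ : Finset (Fin d → ℤ)} {n : Fin d → ℤ} (hn : n ∈ E₀) :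
    cell n ⊆ region E₀ := by
  intro x hx
  rw [mem_cell_iff] at hx
  change corner x ∈ E₀
  rw [hx]; exact hn

/-- The mean of an exponential on the unit cell. -/
def kap (b : EuclideanSpace ℝ (Fin d)) : ℂ := ∫ x in cell 0, ex b x

lemma kap_zero : kap (0 : EuclideanSpace ℝ (Fin d)) = 1 := by
  unfold kap
  simp_rw [ex_zero_left]
  rw [setIntegral_const, measureReal_def, volume_cell]
  simp

lemma setIntegral_cell_ex (b : EuclideanSpace ℝ (Fin d)) (n : Fin d → ℤ) :
    ∫ x in cell n, ex b x = ex b (vec n) * kap b := by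
  rw [setIntegral_cell]
  simp_rw [ex_add_right]
  rw [integral_mul_const, mul_comm]
  rfl

/-- Spectrality of a set, as in the frozen statement. -/
def HasSpectrum (E : Set (EuclideanSpace ℝ (Fin d))) : Prop :=
  ∃ B : Set (EuclideanSpace ℝ (Fin d)),
    (∀ b ∈ B, ∀ b' ∈ B, b ≠ b' → ∫ x in E, ex b x * starRingEnd ℂ (ex b' x) = 0) ∧
    (∀ f : EuclideanSpace ℝ (Fin d) → ℂ, MemLp f 2 (volume.restrict E) →
      (∀ b ∈ B, ∫ x in E, f x * starRingEnd ℂ (ex b x) = 0) →
      f =ᵐ[volume.restrict E] 0)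

theorem not_hasSpectrum {E₀ B₀ : Finset (Fin d → ℤ)} (hE : E₀.Nonempty)
    (hdiff : ∀ b ∈ B₀, ∀ b' ∈ B₀, ∃ e ∈ E₀, ∃ e' ∈ E₀, b - b' = e - e')
    (hcard : E₀.card < B₀.card) : ¬ HasSpectrum (region E₀) := by
  rintro ⟨B, horth, hcomp⟩
  have hvol : (volume.restrict (region E₀)) univ = E₀.card := by
    rw [Measure.restrict_apply_univ, volume_region]
  have hfin : IsFiniteMeasure (volume.restrict (region E₀)) :=
    ⟨by rw [hvol]; exact ENNReal.natCast_lt_top _⟩
  have hcardpos : 0 < E₀.card := hE.card_pos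
  have hcpos : (0 : ℝ) < E₀.card := by exact_mod_cast hcardpos
  set μ : Measure (EuclideanSpace ℝ (Fin d)) := volume.restrict (region E₀) with hμ
  have hμreal : μ.real univ = E₀.card := by
    rw [measureReal_def, hvol]; simp
  -- the exponentials as elements of L²
  have hmem : ∀ b : EuclideanSpace ℝ (Fin d), MemLp (ex b) 2 μ := fun b =>
    MemLp.of_bound (continuous_ex b).aestronglyMeasurable 1
      (Filter.Eventually.of_forall fun x => (norm_ex b x).le)
  let v : EuclideanSpace ℝ (Fin d) → Lp ℂ 2 μ := fun b => (hmem b).toLp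
  have hinner : ∀ b, ∀ f : Lp ℂ 2 μ, inner ℂ (v b) f = ∫ x, f x * starRingEnd ℂ (ex b x) ∂μ := by
    intro b f
    rw [L2.inner_def]
    apply integral_congr_ae
    filter_upwards [(hmem b).coeFn_toLp] with x hx
    rw [hx]; rfl
  have hvv : ∀ b b', inner ℂ (v b) (v b') = ∫ x, ex b' x * starRingEnd ℂ (ex b x) ∂μ := by
    intro b b'
    rw [hinner]
    apply integral_congr_ae
    filter_upwards [(hmem b').coeFn_toLp] with x hx
    rw [hx]
  have hnorm : ∀ b, inner ℂ (v b) (v b) = (E₀.card : ℂ) := by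
    intro b
    rw [hvv]
    simp_rw [ex_mul_conj]
    rw [integral_const, hμreal]; simp
  set c : ℝ := Real.sqrt E₀.card with hc
  have hcc : c * c = E₀.card := Real.mul_self_sqrt hcpos.le
  have hc0 : 0 < c := Real.sqrt_pos.2 hcpos
  have hc0' : (c : ℂ) ≠ 0 := by exact_mod_cast hc0.ne'
  have hccC : (c : ℂ) * c = (E₀.card : ℂ) := by
    rw [← Complex.ofReal_mul, hcc]; simp
  -- the orthonormal family
  let w : B → Lp ℂ 2 μ := fun b => ((c : ℂ)⁻¹) • v b.1
  have hw : Orthonormal ℂ w := by
    rw [orthonormal_iff_ite]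
    intro b b'
    rw [inner_smul_left, inner_smul_right]
    split_ifs with h
    · subst h
      rw [hnorm, map_inv₀, Complex.conj_ofReal, ← hccC]
      field_simp
    · have h1 : inner ℂ (v b.1) (v b'.1) = 0 := by
        rw [hvv]
        exact horth b'.1 b'.2 b.1 b.2 (fun h' => h (Subtype.ext h'.symm))
      rw [h1]; simp
  have hbot : (Submodule.span ℂ (Set.range w))ᗮ = ⊥ := by
    rw [Submodule.eq_bot_iff]
    intro f hf
    have h1 : ∀ b ∈ B, ∫ x in region E₀, f x * starRingEnd ℂ (ex b x) = 0 := by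
      intro b hb
      have h2 : inner ℂ (w ⟨b, hb⟩) f = 0 :=
        Submodule.inner_right_of_mem_orthogonal
          (Submodule.subset_span (Set.mem_range_self (⟨b, hb⟩ : B))) hf
      rw [inner_smul_left] at h2
      rcases mul_eq_zero.1 h2 with h3 | h3
      · exfalso
        rw [map_inv₀, Complex.conj_ofReal] at h3
        exact inv_ne_zero hc0' h3
      · rw [hinner] at h3; exact h3
    have h2 := hcomp f (Lp.memLp f) h1
    exact (Lp.eq_zero_iff_ae_eq_zero).2 h2
  let bas := HilbertBasis.mkOfOrthogonalEqBot hw hbot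
  have hbas : ∀ b, bas b = w b := fun b => by
    have := HilbertBasis.coe_mkOfOrthogonalEqBot hw hbot
    exact congrFun this b
  -- B is nonempty
  have hBne : B.Nonempty := by
    by_contra hemp
    rw [Set.not_nonempty_iff_eq_empty] at hemp
    have h1 := hcomp (fun _ => 1) (memLp_const 1) (by rw [hemp]; simp)
    have h2 : μ = 0 := by
      rw [Filter.EventuallyEq, ae_iff] at h1
      have h3 : {a : EuclideanSpace ℝ (Fin d) | ¬ (1 : ℂ) = (0 : EuclideanSpace ℝ (Fin d) → ℂ) a} = univ := by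
        ext x; simp
      rw [h3] at h1
      exact Measure.measure_univ_eq_zero.1 h1
    rw [h2] at hμreal
    have h4 : (0 : Measure (EuclideanSpace ℝ (Fin d))).real univ = 0 := by simp [measureReal_def]
    rw [h4] at hμreal
    exact hcpos.ne hμreal
  obtain ⟨b₀, hb₀⟩ := hBne
  -- test functions
  have humem : ∀ e : Fin d → ℤ, MemLp ((cell e).indicator (ex b₀)) 2 μ := fun e =>
    (hmem b₀).indicator (measurableSet_cell e)
  let u : (Fin d → ℤ) → Lp ℂ 2 μ := fun e => (humem e).toLp
  have hwu : ∀ b : B, ∀ e ∈ E₀, inner ℂ (w b) (u e) =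
      (c : ℂ)⁻¹ * (ex (b₀ - b.1) (vec e) * kap (b₀ - b.1)) := by
    intro b e he
    rw [inner_smul_left, hinner, map_inv₀, Complex.conj_ofReal]
    congr 1
    have h1 : ∫ x, (u e) x * starRingEnd ℂ (ex b.1 x) ∂μ =
        ∫ x, (cell e).indicator (ex (b₀ - b.1)) x ∂μ := by
      apply integral_congr_ae
      filter_upwards [(humem e).coeFn_toLp] with x hx
      rw [hx]
      by_cases hxe : x ∈ cell e
      · rw [indicator_of_mem hxe, indicator_of_mem hxe, sub_eq_add_neg, ex_add_left, ex_neg_left]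
      · rw [indicator_of_notMem hxe, indicator_of_notMem hxe, zero_mul]
    rw [h1, integral_indicator (measurableSet_cell e), hμ,
      Measure.restrict_restrict (measurableSet_cell e),
      Set.inter_eq_left.2 (cell_subset_region he), setIntegral_cell_ex]
  have huu : ∀ e ∈ E₀, ∀ e' ∈ E₀, inner ℂ (u e') (u e) = if e = e' then (1 : ℂ) else 0 := by
    intro e he e' he'
    rw [L2.inner_def]
    have h1 : ∫ x, inner ℂ ((u e') x) ((u e) x) ∂μ =
        ∫ x, (cell e ∩ cell e').indicator (fun _ => (1 : ℂ)) x ∂μ := by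
      apply integral_congr_ae
      filter_upwards [(humem e).coeFn_toLp, (humem e').coeFn_toLp] with x hx hx'
      rw [hx, hx']
      by_cases h1 : x ∈ cell e
      · by_cases h2 : x ∈ cell e'
        · rw [indicator_of_mem h1, indicator_of_mem h2,
            indicator_of_mem (show x ∈ cell e ∩ cell e' from ⟨h1, h2⟩)]
          exact ex_mul_conj b₀ x
        · rw [indicator_of_notMem h2,
            indicator_of_notMem (fun h : x ∈ cell e ∩ cell e' => h2 h.2), inner_zero_left]
      · rw [indicator_of_notMem h1,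
          indicator_of_notMem (fun h : x ∈ cell e ∩ cell e' => h1 h.1), inner_zero_right]
    rw [h1, integral_indicator ((measurableSet_cell e).inter (measurableSet_cell e')), hμ,
      Measure.restrict_restrict ((measurableSet_cell e).inter (measurableSet_cell e')),
      Set.inter_eq_left.2 (fun x hx => cell_subset_region he hx.1)]
    split_ifs with h
    · subst h
      rw [inter_self, setIntegral_const, measureReal_def, volume_cell]; simp
    · rw [(cell_disjoint h).inter_eq]; simp
  -- Parseval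
  have hpar : ∀ e ∈ E₀, ∀ e' ∈ E₀, HasSum (fun b : B => (((‖kap (b₀ - b.1)‖ ^ 2 : ℝ) : ℂ)) *
      ex (b₀ - b.1) (vec (e - e'))) (if e = e' then (E₀.card : ℂ) else 0) := by
    intro e he e' he'
    have h1 := (bas.hasSum_inner_mul_inner (u e') (u e)).mul_left ((c : ℂ) * c)
    rw [huu e he e' he'] at h1
    have hfun : (fun b : B => (((‖kap (b₀ - b.1)‖ ^ 2 : ℝ) : ℂ)) *
        ex (b₀ - b.1) (vec (e - e'))) =
        fun b : B => (c : ℂ) * c * (inner ℂ (u e') (bas b) * inner ℂ (bas b) (u e)) := by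
      ext b
      rw [hbas, hwu b e he, ← inner_conj_symm, hwu b e' he']
      rw [map_mul, map_mul, map_inv₀, Complex.conj_ofReal]
      have h2 : ex (b₀ - b.1) (vec (e - e')) =
          ex (b₀ - b.1) (vec e) * starRingEnd ℂ (ex (b₀ - b.1) (vec e')) := by
        have h3 := ex_add_right (b₀ - b.1) (vec (e - e')) (vec e')
        rw [← vec_add, sub_add_cancel] at h3
        rw [h3, mul_assoc, ex_mul_conj, mul_one]
      have h4 : (((‖kap (b₀ - b.1)‖ ^ 2 : ℝ) : ℂ)) =
          kap (b₀ - b.1) * starRingEnd ℂ (kap (b₀ - b.1)) := by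
        rw [Complex.mul_conj, Complex.normSq_eq_norm_sq]
      rw [h2, h4]
      field_simp
    have hval : (if e = e' then (E₀.card : ℂ) else 0) =
        (c : ℂ) * c * (if e = e' then (1 : ℂ) else 0) := by
      rw [hccC]; split_ifs <;> simp
    rw [hfun, hval]
    exact h1
  -- sum over B₀
  have hsum : HasSum (fun b : B => ∑ p ∈ B₀, ∑ q ∈ B₀, (((‖kap (b₀ - b.1)‖ ^ 2 : ℝ) : ℂ)) *
      ex (b₀ - b.1) (vec (p - q))) (∑ p ∈ B₀, ∑ q ∈ B₀, if p = q then (E₀.card : ℂ) else 0) := by
    refine hasSum_sum fun p hp => hasSum_sum fun q hq => ?_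
    obtain ⟨e, he, e', he', heq⟩ := hdiff p hp q hq
    have h1 := hpar e he e' he'
    rw [← heq] at h1
    have h2 : (p = q) ↔ (e = e') := by
      rw [← sub_eq_zero, heq, sub_eq_zero]
    simp only [h2]
    exact h1
  have hterm : ∀ b : B, ∑ p ∈ B₀, ∑ q ∈ B₀, (((‖kap (b₀ - b.1)‖ ^ 2 : ℝ) : ℂ)) *
      ex (b₀ - b.1) (vec (p - q)) =
      ((‖kap (b₀ - b.1)‖ ^ 2 * ‖∑ p ∈ B₀, ex (b₀ - b.1) (vec p)‖ ^ 2 : ℝ) : ℂ) := by
    intro b
    have h3 : ∀ p q : Fin d → ℤ, ex (b₀ - b.1) (vec (p - q)) =
        ex (b₀ - b.1) (vec p) * starRingEnd ℂ (ex (b₀ - b.1) (vec q)) := by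
      intro p q
      have h3 := ex_add_right (b₀ - b.1) (vec (p - q)) (vec q)
      rw [← vec_add, sub_add_cancel] at h3
      rw [h3, mul_assoc, ex_mul_conj, mul_one]
    simp_rw [h3, ← Finset.mul_sum]
    push_cast
    congr 1
    rw [← Finset.sum_mul, ← map_sum, Complex.mul_conj, Complex.normSq_eq_norm_sq]
    push_cast; rfl
  simp_rw [hterm] at hsum
  have hval : (∑ p ∈ B₀, ∑ q ∈ B₀, if p = q then (E₀.card : ℂ) else 0) =
      ((B₀.card * E₀.card : ℝ) : ℂ) := by
    have : ∀ p ∈ B₀, (∑ q ∈ B₀, if p = q then (E₀.card : ℂ) else 0) = E₀.card := by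
      intro p hp
      rw [Finset.sum_ite_eq, if_pos hp]
    rw [Finset.sum_congr rfl this, Finset.sum_const]
    push_cast; simp
  rw [hval] at hsum
  have hsumR := Complex.hasSum_ofReal.1 hsum
  have hle := le_hasSum hsumR ⟨b₀, hb₀⟩ (fun b _ => by positivity)
  simp only [sub_self, kap_zero, ex_zero_left, norm_one, one_pow, one_mul, Finset.sum_const,
    nsmul_eq_mul, mul_one] at hle
  rw [Complex.norm_natCast] at hle
  have h1 : (B₀.card : ℝ) ≤ E₀.card := by
    have hB : (0 : ℝ) < B₀.card := by exact_mod_cast (lt_trans hcardpos hcard)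
    nlinarith
  have h2 : B₀.card ≤ E₀.card := by exact_mod_cast h1
  omega

end

end Pool.Agent.Helper91
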